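import Pool.Agent.Helper15.DAK.Stmts

/-!
# Row KILL of DAK
-/

open Pool.Agent.Helper15.DAF

namespace Pool.Agent.Helper15.DAK

namespace S2KILL

variable {K : Type} [Field K] [Algebra ℂ K]

theorem comm_zero {P : Module.End ℂ K} {A : Set K}
    (hfrac : ∀ x : K, ∃ a ∈ A, ∃ b ∈ A, b ≠ 0 ∧ x * b = a) (hA : ∀ a ∈ A, P a = 0)
    (hc : ∀ a ∈ A, ∀ x : K, P (a * x) = a * P x) : P = 0 := by
  apply LinearMap.ext
  intro x
  obtain ⟨a, ha, b, hb, hb0, hx⟩ := hfrac x
  have h2 : b * P x = 0 := by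
    rw [← hc b hb x, mul_comm b x, hx, hA a ha]
  rcases mul_eq_zero.mp h2 with h | h
  · exact absurd h hb0
  · exact h

theorem kill {A : Set K} (hmul : ∀ a ∈ A, ∀ b ∈ A, a * b ∈ A)
    (hfrac : ∀ x : K, ∃ a ∈ A, ∃ b ∈ A, b ≠ 0 ∧ x * b = a) (m : ℕ) (P : Module.End ℂ K)
    (hP : Ord m P) (hA : ∀ a ∈ A, P a = 0) : P = 0 := by
  induction m generalizing P with
  | zero =>
    apply comm_zero hfrac hA
    intro a _ x
    have := LinearMap.congr_fun (hP a) x
    change P (a * x) - a * P x = 0 at this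
    exact sub_eq_zero.mp this
  | succ m ih =>
    apply comm_zero hfrac hA
    intro a ha x
    have h0 : P * mulOp a - mulOp a * P = 0 := by
      apply ih _ (hP a)
      intro b hb
      change P (a * b) - a * P b = 0
      rw [hA b hb, hA _ (hmul a ha b hb), mul_zero, sub_zero]
    have := LinearMap.congr_fun h0 x
    change P (a * x) - a * P x = 0 at this
    exact sub_eq_zero.mp this

end S2KILL

theorem st_KILL (hO : ST_ORD) : ST_KILL := by
  intro K _ _ G hG P hP hg
  obtain ⟨-, -, -, -, -, -, h7⟩ := hO K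
  obtain ⟨m, hm⟩ := h7 P hP
  exact S2KILL.kill (A := (G : Set K)) (fun a ha b hb => G.mul_mem ha hb) hG m P hm hg

end Pool.Agent.Helper15.DAK
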