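import Pool.Agent.Helper15.DAK.Stmts

/-!
# Row TRD of DAK: the trace commutes with derivations
-/

open Pool.Agent.Helper15.DAF

namespace Pool.Agent.Helper15.DAK

namespace S2

/-- The trace commutes with a derivation and its extension. -/
theorem trace_der {K L : Type} [Field K] [Field L] [Algebra K L] [FiniteDimensional K L]
    (d : K →+ K) (D : L →+ L) (hD : ∀ a b, D (a * b) = a * D b + b * D a)
    (hc : ∀ k, D (algebraMap K L k) = algebraMap K L (d k)) (l : L) :
    Algebra.trace K L (D l) = d (Algebra.trace K L l) := by
  classical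
  let b := Module.finBasis K L
  let C : Matrix (Fin (Module.finrank K L)) (Fin (Module.finrank K L)) K :=
    Matrix.of (fun i j => b.repr (D (b j)) i)
  have hCa : ∀ i j, C i j = b.repr (D (b j)) i := fun i j => rfl
  let E : Matrix (Fin (Module.finrank K L)) (Fin (Module.finrank K L)) K :=
    Matrix.of (fun i j => d (Algebra.leftMulMatrix b l i j))
  have hEa : ∀ i j, E i j = d (Algebra.leftMulMatrix b l i j) := fun i j => rfl
  have hsmul : ∀ (k : K) (x : L), D (k • x) = k • D x + d k • x := by
    intro k x
    rw [Algebra.smul_def, hD, hc, Algebra.smul_def, Algebra.smul_def]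
    ring
  have hM : ∀ (x : L) (j), x * b j = ∑ i, Algebra.leftMulMatrix b x i j • b i := by
    intro x j
    conv_lhs => rw [← b.sum_repr (x * b j)]
    apply Finset.sum_congr rfl
    intro i _
    rw [Algebra.leftMulMatrix_eq_repr_mul]
  have hC : ∀ j, D (b j) = ∑ i, C i j • b i := by
    intro j
    exact (b.sum_repr (D (b j))).symm
  have key : Algebra.leftMulMatrix b (D l) =
      E + (C * Algebra.leftMulMatrix b l - Algebra.leftMulMatrix b l * C) := by
    generalize hMM : Algebra.leftMulMatrix b l = M at *
    have hMl : ∀ j, l * b j = ∑ i, M i j • b i := by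
      intro j
      rw [hM l j, hMM]
    ext k j
    have e1 : D (l * b j) = l * D (b j) + b j * D l := hD l (b j)
    have e2 : D (l * b j) = ∑ i, (M i j • D (b i) + d (M i j) • b i) := by
      rw [hMl j, map_sum]
      apply Finset.sum_congr rfl
      intro i _
      rw [hsmul]
    have e3 : l * D (b j) = ∑ i, ∑ k, (C i j * M k i) • b k := by
      rw [hC j, Finset.mul_sum]
      apply Finset.sum_congr rfl
      intro i _
      rw [mul_smul_comm, hMl i, Finset.smul_sum]
      apply Finset.sum_congr rfl
      intro k _
      rw [smul_smul]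
    have e4 : ∑ i, (M i j • D (b i) + d (M i j) • b i) =
        ∑ i, ∑ k, (M i j * C k i) • b k + ∑ i, d (M i j) • b i := by
      rw [Finset.sum_add_distrib]
      congr 1
      apply Finset.sum_congr rfl
      intro i _
      rw [hC i, Finset.smul_sum]
      apply Finset.sum_congr rfl
      intro k _
      rw [smul_smul]
    have e5 : b j * D l = ∑ i, Algebra.leftMulMatrix b (D l) i j • b i := by
      rw [mul_comm, hM (D l) j]
    have e6 : ∑ i, Algebra.leftMulMatrix b (D l) i j • b i =
        ∑ i, ∑ k, (M i j * C k i) • b k + ∑ i, d (M i j) • b i -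
          ∑ i, ∑ k, (C i j * M k i) • b k := by
      rw [← e5, ← e3, ← e4, ← e2, e1]
      ring
    have e7 := congrArg (fun z => b.repr z k) e6
    simp only [map_sub, map_add, map_sum, map_smul, Module.Basis.repr_self, Finsupp.coe_sub,
      Finsupp.coe_add, Finsupp.coe_finsetSum, Pi.sub_apply, Pi.add_apply, Finset.sum_apply,
      Finsupp.smul_single, Finsupp.single_apply, smul_eq_mul, mul_one, Finset.sum_ite_eq',
      Finset.mem_univ, if_true] at e7
    rw [e7, Matrix.add_apply, Matrix.sub_apply, Matrix.mul_apply, Matrix.mul_apply, hEa]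
    have s1 : ∑ x, M x j * C k x = ∑ x, C k x * M x j := by
      apply Finset.sum_congr rfl
      intro x _
      ring
    have s2 : ∑ x, C x j * M k x = ∑ x, M k x * C x j := by
      apply Finset.sum_congr rfl
      intro x _
      ring
    rw [s1, s2]
    ring
  rw [Algebra.trace_eq_matrix_trace b, key, Algebra.trace_eq_matrix_trace b, Matrix.trace_add,
    Matrix.trace_sub, Matrix.trace_mul_comm C _, sub_self, add_zero]
  rw [Matrix.trace, Matrix.trace, map_sum]
  rfl

end S2

theorem st_TRD : ST_TRD := by
  intro K L _ _ _ _ _ _ _ d D _ hD hc f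
  exact S2.trace_der d.toAddMonoidHom D.toAddMonoidHom hD hc f

end Pool.Agent.Helper15.DAK
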